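import Pool.Agent.Helper96.AF.F4
import Pool.Agent.Helper96.AF.F5
import Pool.Agent.Helper66.LW.LF
import Pool.Agent.Helper66.LW.RES

/-!
# MP_a499ba_nt: the random model of the Mertens function, exact order at every scale

Let `ε p` (`p` prime) be independent random signs, `1` or `-1` with probability `1/2`, and
`f(n) = μ(n)^2 ∏_{p ∣ n} ε p` (the random model of the Moebius function, for which all signs are `-1`), with partial
sums `M(x)`. For every `δ > 0`, almost surely `|M(x)| ≤ C √x (log log x)^(1/4 + δ)` for all real `x ≥ 3`, and for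
all large `X` there are `x, y ∈ [X, X^4]` with `M(x) ≥ √x (log log x)^(1/4 - δ)` and
`M(y) ≤ -√y (log log y)^(1/4 - δ)`.
-/

set_option autoImplicit false

namespace Pool.Agent.Helper96.Keep.RandomModel

open MeasureTheory ProbabilityTheory

/-- The function `μ(n)^2 ∏_{p ∣ n} s(p)` attached to the signs `s(p)` of the primes. -/
noncomputable def signed (s : Nat.Primes → ℝ) (n : ℕ) : ℝ :=
  if Squarefree n then ∏ p ∈ n.primeFactors.attach, s ⟨p, Nat.prime_of_mem_primeFactors p.2⟩ else 0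

/-- The summatory function `∑_{1 ≤ n ≤ x} f(n)`. -/
noncomputable def M (f : ℕ → ℝ) (x : ℝ) : ℝ := ∑ n ∈ Finset.Icc 1 ⌊x⌋₊, f n

theorem result (δ : ℝ) (hδ : 0 < δ) {Ω : Type*} [MeasurableSpace Ω] (P : Measure Ω) [IsProbabilityMeasure P]
    (ε : Nat.Primes → Ω → ℝ) (hm : ∀ p, Measurable (ε p)) (hi : iIndepFun ε P)
    (h1 : ∀ p, P {ω | ε p ω = 1} = 1 / 2) (h2 : ∀ p, P {ω | ε p ω = -1} = 1 / 2) :
    ∀ᵐ ω ∂P,
      (∃ C : ℝ, ∀ x : ℝ, 3 ≤ x →
        |M (signed fun p => ε p ω) x| ≤ C * Real.sqrt x * Real.log (Real.log x) ^ (1 / 4 + δ)) ∧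
      (∃ X0 : ℝ, ∀ X : ℝ, X0 ≤ X →
        (∃ x : ℝ, X ≤ x ∧ x ≤ X ^ 4 ∧
          Real.sqrt x * Real.log (Real.log x) ^ (1 / 4 - δ) ≤ M (signed fun p => ε p ω) x) ∧
        (∃ y : ℝ, X ≤ y ∧ y ≤ X ^ 4 ∧
          M (signed fun p => ε p ω) y ≤ -(Real.sqrt y * Real.log (Real.log y) ^ (1 / 4 - δ)))) := by
  have hd : 0 < min δ (1 / 16) := lt_min hδ (by norm_num)
  filter_upwards [Pool.Agent.Helper96.AF.almost_sure δ hδ P (Pool.Agent.Helper96.AF.ext ε)
    (Pool.Agent.Helper96.AF.unif_primes P ε hm hi h2)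
    (Pool.Agent.Helper96.AF.ae_pm_primes P ε hm h2 h1),
    Pool.Agent.Helper66.LW.low_f' (min δ (1 / 16)) hd (min_le_right _ _) P (Pool.Agent.Helper96.AF.ext ε)
    (Pool.Agent.Helper96.AF.unif_primes P ε hm hi h2),
    Pool.Agent.Helper96.AF.ae_pm_primes P ε hm h2 h1] with ω hω hlow hpm
  have e2 : ∀ n : ℕ, signed (fun p => ε p ω) n =
      Pool.Agent.Helper96.AF.rs (Pool.Agent.Helper96.AF.ext ε) ω n := by
    intro n
    unfold signed Pool.Agent.Helper96.AF.rs
    split_ifs with hn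
    · rw [← Finset.prod_attach n.primeFactors (fun p => Pool.Agent.Helper96.AF.ext ε p ω)]
      refine Finset.prod_congr rfl fun p _ => ?_
      unfold Pool.Agent.Helper96.AF.ext
      rw [dif_pos (Nat.prime_of_mem_primeFactors p.2)]
    · rfl
  have e1 : ∀ x : ℝ, M (signed fun p => ε p ω) x =
      ∑ n ∈ Finset.Icc 1 ⌊x⌋₊, Pool.Agent.Helper96.AF.rs (Pool.Agent.Helper96.AF.ext ε) ω n := by
    intro x
    unfold M
    exact Finset.sum_congr rfl fun n _ => e2 n
  constructor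
  · obtain ⟨C, hC⟩ := hω
    refine ⟨C, fun x hx => ?_⟩
    rw [e1]
    exact hC x hx
  · refine Pool.Agent.Helper66.LW.scale_mono (min δ (1 / 16)) δ (min_le_left _ _) _
      (Pool.Agent.Helper66.LW.scale_conv (min δ (1 / 16)) hd (min_le_right _ _) _
        (fun r n => Pool.Agent.Helper96.AF.MM (Pool.Agent.Helper96.AF.TT (Pool.Agent.Helper96.AF.ext ε) ω
          (Pool.Agent.Helper96.AF.Y (r + 1))) n) ?_ hlow)
    intro r n hn
    rw [e1, Nat.floor_natCast]
    unfold Pool.Agent.Helper96.AF.MM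
    refine Finset.sum_congr rfl fun m hm' => ?_
    exact Pool.Agent.Helper96.AF.rs_eq _ _ hpm _ _ ((Finset.mem_Icc.1 hm').2.trans hn)

end Pool.Agent.Helper96.Keep.RandomModel
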